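import Pool.Agent.Lib.MP_6bc78b_nt.MS.L.Iface

/-! Project MS, Part IIIa, module PSB: averages against the prime coefficients. -/

set_option autoImplicit false

open Filter Topology ArithmeticFunction Finset

namespace Pool.Agent.Lib.MP_6bc78b_nt.MS.L.H79

/-- A limit form of the Mertens sums of smooth functions. -/
theorem lim_w1 (hm : MerStatement) (h : Ps1Statement) (t : ℝ) (ht0 : 0 ≤ t) (ht1 : t ≤ 1)
    (f f' : ℝ → ℝ) (hf : ∀ u, HasDerivAt f (f' u) u) (hf' : Continuous f') :
    Tendsto (fun T : ℝ => (∑ n ∈ Icc 1 ⌊T ^ t⌋₊, w1 n * f (Real.log n / Real.log T)) / Real.log T)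
      atTop (𝓝 (∫ u in (0 : ℝ)..t, f u)) := by
  obtain ⟨C, hC, h1, -, -⟩ := hm
  have hfc : Continuous f := continuous_iff_continuousAt.mpr fun u => (hf u).continuousAt
  obtain ⟨K1, hK1⟩ := (isCompact_Icc (a := (0 : ℝ)) (b := t)).exists_bound_of_continuousOn
    hfc.continuousOn
  obtain ⟨K2, hK2⟩ := (isCompact_Icc (a := (0 : ℝ)) (b := t)).exists_bound_of_continuousOn
    hf'.continuousOn
  set K := max K1 K2 with hK
  have hlog : Tendsto (fun T : ℝ => 2 * C * K / Real.log T) atTop (𝓝 0) :=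
    Tendsto.div_atTop tendsto_const_nhds Real.tendsto_log_atTop
  rw [tendsto_iff_norm_sub_tendsto_zero]
  refine squeeze_zero' (Eventually.of_forall fun _ => norm_nonneg _) ?_ hlog
  filter_upwards [eventually_ge_atTop (Real.exp 1)] with T hT
  have hT0 : 0 < T := lt_of_lt_of_le (Real.exp_pos 1) hT
  have hL : 1 ≤ Real.log T := by
    rw [Real.le_log_iff_exp_le hT0]; exact hT
  have hL0 : 0 < Real.log T := by linarith
  have key := h w1 C hC.le h1 (Real.log T) t K f f' hL ht0 ht1 hf hf'
    (fun u hu => (hK1 u hu).trans (le_max_left _ _)) (fun u hu => (hK2 u hu).trans (le_max_right _ _))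
  have hpow : T ^ t = Real.exp (t * Real.log T) := by
    rw [Real.rpow_def_of_pos hT0, mul_comm]
  rw [hpow, Real.norm_eq_abs]
  have : (∑ n ∈ Icc 1 ⌊Real.exp (t * Real.log T)⌋₊, w1 n * f (Real.log n / Real.log T)) /
      Real.log T - ∫ u in (0 : ℝ)..t, f u =
      ((∑ n ∈ Icc 1 ⌊Real.exp (t * Real.log T)⌋₊, w1 n * f (Real.log n / Real.log T)) -
        Real.log T * ∫ u in (0 : ℝ)..t, f u) / Real.log T := by
    field_simp
  rw [this, abs_div, abs_of_pos hL0]
  exact div_le_div_of_nonneg_right key hL0.le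

/-- The prime coefficients in terms of `w1`. -/
theorem bb_div (lam T : ℝ) (hT : 1 < T) (hlam : 0 < lam) (a : ℕ) (ha : (a : ℝ) ≤ T ^ lam) :
    bb lam T a / a = w1 a * ((1 - Real.log a / Real.log T / lam) / lam) / Real.log T := by
  have hL0 : 0 < Real.log T := Real.log_pos hT
  have : bb lam T a = bbf lam T a := rfl
  rw [this, bbf, if_pos ha, w1]
  rcases Nat.eq_zero_or_pos a with h0 | h0
  · subst h0; simp
  · have : (a : ℝ) ≠ 0 := by positivity
    field_simp

/-- The weight `w1` is nonnegative. -/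
theorem w1_nonneg (n : ℕ) : 0 ≤ w1 n := by
  unfold w1
  exact div_nonneg ArithmeticFunction.vonMangoldt_nonneg (Nat.cast_nonneg n)

/-- Bounds for `1 - log a / (t log T)`. -/
theorem one_sub_mem (t T : ℝ) (hT : 1 < T) (ht : 0 < t) (a : ℕ) (ha1 : 1 ≤ a)
    (ha : (a : ℝ) ≤ T ^ t) :
    0 ≤ 1 - Real.log a / Real.log T / t ∧ 1 - Real.log a / Real.log T / t ≤ 1 := by
  have hL0 : 0 < Real.log T := Real.log_pos hT
  have h1 : 0 ≤ Real.log a := Real.log_natCast_nonneg a
  have h2 : Real.log a ≤ t * Real.log T := by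
    have h3 : Real.log a ≤ Real.log (T ^ t) :=
      Real.log_le_log (by exact_mod_cast ha1) ha
    rwa [Real.log_rpow (by linarith)] at h3
  have h4 : Real.log a / Real.log T / t ≤ 1 := by
    rw [div_div, div_le_one (by positivity)]
    linarith [mul_comm t (Real.log T)]
  have h5 : 0 ≤ Real.log a / Real.log T / t := by positivity
  constructor <;> linarith

/-- Sums over non-primes are negligible. -/
theorem nonprime_lim (hm : MerStatement) (t lam : ℝ) (ht : 0 < t) (htl : t ≤ lam)
    (g : ℝ → ℕ → ℝ) (hg : ∀ T : ℝ, 1 < T → ∀ a : ℕ, 1 ≤ a → (a : ℝ) ≤ T ^ t → |g T a| ≤ 1) :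
    Tendsto (fun T : ℝ => ∑ a ∈ (Icc 1 ⌊T ^ t⌋₊).filter (fun a => ¬ a.Prime),
      bb lam T a / a * g T a) atTop (𝓝 0) := by
  obtain ⟨C, hC, -, -, h3⟩ := hm
  have hlam : 0 < lam := lt_of_lt_of_le ht htl
  have hlog : Tendsto (fun T : ℝ => C / lam / Real.log T) atTop (𝓝 0) :=
    Tendsto.div_atTop tendsto_const_nhds Real.tendsto_log_atTop
  rw [tendsto_zero_iff_norm_tendsto_zero]
  refine squeeze_zero' (Eventually.of_forall fun _ => norm_nonneg _) ?_ hlog
  filter_upwards [eventually_gt_atTop (1 : ℝ)] with T hT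
  have hL0 : 0 < Real.log T := Real.log_pos hT
  rw [Real.norm_eq_abs]
  refine (Finset.abs_sum_le_sum_abs _ _).trans ?_
  have hterm : ∀ a ∈ (Icc 1 ⌊T ^ t⌋₊).filter (fun a => ¬ a.Prime),
      |bb lam T a / a * g T a| ≤ w1 a * (1 / lam / Real.log T) := by
    intro a ha
    rw [Finset.mem_filter, Finset.mem_Icc] at ha
    have haT : (a : ℝ) ≤ T ^ t := by
      have := ha.1.2
      exact (Nat.le_floor_iff (by positivity)).mp this
    have hal : (a : ℝ) ≤ T ^ lam := haT.trans (Real.rpow_le_rpow_of_exponent_le hT.le htl)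
    have hb := one_sub_mem lam T hT hlam a ha.1.1 hal
    rw [bb_div lam T hT hlam a hal, abs_mul]
    have e1 : |w1 a * ((1 - Real.log a / Real.log T / lam) / lam) / Real.log T| ≤
        w1 a * (1 / lam / Real.log T) := by
      rw [abs_of_nonneg (by
        apply div_nonneg _ hL0.le
        exact mul_nonneg (w1_nonneg a) (div_nonneg hb.1 hlam.le))]
      rw [mul_div_assoc]
      apply mul_le_mul_of_nonneg_left _ (w1_nonneg a)
      apply div_le_div_of_nonneg_right _ hL0.le
      exact div_le_div_of_nonneg_right hb.2 hlam.le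
    calc |w1 a * ((1 - Real.log a / Real.log T / lam) / lam) / Real.log T| * |g T a| ≤
        (w1 a * (1 / lam / Real.log T)) * 1 := by
          apply mul_le_mul e1 (hg T hT a ha.1.1 haT) (abs_nonneg _)
          exact mul_nonneg (w1_nonneg a) (by positivity)
      _ = _ := by ring
  refine (Finset.sum_le_sum hterm).trans ?_
  rw [← Finset.sum_mul]
  have := h3 ⌊T ^ t⌋₊
  calc (∑ i ∈ (Icc 1 ⌊T ^ t⌋₊).filter (fun a => ¬ a.Prime), w1 i) * (1 / lam / Real.log T) ≤
      C * (1 / lam / Real.log T) := mul_le_mul_of_nonneg_right this (by positivity)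
    _ = C / lam / Real.log T := by ring

/-- The sum over all `a ≤ T^t`. -/
theorem all_lim (hm : MerStatement) (h : Ps1Statement) (t lam : ℝ) (ht : 0 < t) (htl : t ≤ lam)
    (hl1 : lam < 1) (f f' : ℝ → ℝ) (hf : ∀ u, HasDerivAt f (f' u) u) (hf' : Continuous f') :
    Tendsto (fun T : ℝ => ∑ a ∈ Icc 1 ⌊T ^ t⌋₊, bb lam T a / a * f (Real.log a / Real.log T))
      atTop (𝓝 (∫ u in (0 : ℝ)..t, (1 - u / lam) / lam * f u)) := by
  have hlam : 0 < lam := lt_of_lt_of_le ht htl
  have hfc : Continuous f := continuous_iff_continuousAt.mpr fun u => (hf u).continuousAt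
  have hd : ∀ u, HasDerivAt (fun u => (1 - u / lam) / lam * f u)
      (-(1 / lam / lam) * f u + (1 - u / lam) / lam * f' u) u := by
    intro u
    have h1 : HasDerivAt (fun u : ℝ => (1 - u / lam) / lam) (-(1 / lam / lam)) u := by
      have h2 : HasDerivAt (fun u : ℝ => (1 - u / lam) / lam) (-(1 / lam) / lam) u :=
        (((hasDerivAt_id u).div_const lam).const_sub 1).div_const lam
      exact h2.congr_deriv (by ring)
    exact h1.mul (hf u)
  have hc : Continuous (fun u : ℝ => -(1 / lam / lam) * f u + (1 - u / lam) / lam * f' u) := by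
    fun_prop
  have key := lim_w1 hm h t ht.le (htl.trans hl1.le) _ _ hd hc
  refine key.congr' ?_
  filter_upwards [eventually_gt_atTop (1 : ℝ)] with T hT
  rw [Finset.sum_div]
  apply Finset.sum_congr rfl
  intro a ha
  rw [Finset.mem_Icc] at ha
  have haT : (a : ℝ) ≤ T ^ t := (Nat.le_floor_iff (by positivity)).mp ha.2
  have hal : (a : ℝ) ≤ T ^ lam := haT.trans (Real.rpow_le_rpow_of_exponent_le hT.le htl)
  rw [bb_div lam T hT hlam a hal]
  ring

/-- First integral. -/
theorem int1 (lam : ℝ) (hlam : 0 < lam) (k : ℕ) :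
    ∫ u in (0 : ℝ)..lam, (1 - u / lam) / lam * u ^ k = lam ^ k / (((k : ℝ) + 1) * (k + 2)) := by
  have hd : ∀ u ∈ Set.uIcc 0 lam, HasDerivAt
      (fun u : ℝ => (u ^ (k + 1) / ((k : ℝ) + 1) - u ^ (k + 2) / ((k : ℝ) + 2) / lam) / lam)
      ((1 - u / lam) / lam * u ^ k) u := by
    intro u _
    have h1 := ((hasDerivAt_pow (k + 1) u).div_const ((k : ℝ) + 1))
    have h2 := (((hasDerivAt_pow (k + 2) u).div_const ((k : ℝ) + 2)).div_const lam)
    have h3 := (h1.sub h2).div_const lam
    have e1 : ((k : ℝ) + 1) ≠ 0 := by positivity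
    have e2 : ((k : ℝ) + 2) ≠ 0 := by positivity
    refine HasDerivAt.congr_deriv h3 ?_
    push_cast
    field_simp
    ring
  rw [intervalIntegral.integral_eq_sub_of_hasDerivAt hd
    (Continuous.intervalIntegrable (by fun_prop) _ _)]
  have e1 : ((k : ℝ) + 1) ≠ 0 := by positivity
  have e2 : ((k : ℝ) + 2) ≠ 0 := by positivity
  rw [zero_pow (by omega), zero_pow (by omega)]
  field_simp
  ring

/-- Second integral. -/
theorem int2 (th lam : ℝ) (hth : 0 < th) (hlam : 0 < lam) (k : ℕ) :
    ∫ u in (0 : ℝ)..th, (1 - u / lam) / lam * (1 - u / th) ^ k =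
      th / lam * (1 / ((k : ℝ) + 1) - th / lam / (((k : ℝ) + 1) * (k + 2))) := by
  have e1 : ((k : ℝ) + 1) ≠ 0 := by positivity
  have e2 : ((k : ℝ) + 2) ≠ 0 := by positivity
  have hd : ∀ u ∈ Set.uIcc 0 th, HasDerivAt
      (fun u : ℝ => -(th / lam) * ((1 - th / lam) * ((1 - u / th) ^ (k + 1) / ((k : ℝ) + 1)) +
        th / lam * ((1 - u / th) ^ (k + 2) / ((k : ℝ) + 2))))
      ((1 - u / lam) / lam * (1 - u / th) ^ k) u := by
    intro u _
    have h0 : HasDerivAt (fun u : ℝ => 1 - u / th) (-(1 / th)) u :=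
      ((hasDerivAt_id u).div_const th).const_sub 1
    have h1 := ((h0.pow (k + 1)).div_const ((k : ℝ) + 1)).const_mul (1 - th / lam)
    have h2 := ((h0.pow (k + 2)).div_const ((k : ℝ) + 2)).const_mul (th / lam)
    have h3 := (h1.add h2).const_mul (-(th / lam))
    refine HasDerivAt.congr_deriv h3 ?_
    obtain ⟨v, hv⟩ : ∃ v, v = 1 - u / th := ⟨_, rfl⟩
    have hu : u = th * (1 - v) := by rw [hv]; field_simp; ring
    rw [← hv, hu, show k + 2 - 1 = k + 1 from rfl, show k + 1 - 1 = k from rfl, pow_succ]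
    push_cast
    field_simp
    ring
  rw [intervalIntegral.integral_eq_sub_of_hasDerivAt hd
    (Continuous.intervalIntegrable (by fun_prop) _ _)]
  have : (1 : ℝ) - th / th = 0 := by rw [div_self hth.ne', sub_self]
  rw [this, zero_pow (by omega), zero_pow (by omega)]
  simp only [zero_div, sub_zero, one_pow]
  field_simp
  ring

/-- Module PSB. -/
theorem psb (hm : MerStatement) (h : Ps1Statement) : PsbStatement := by
  intro th lam hth htl hl1
  have hlam : 0 < lam := hth.trans htl
  refine ⟨fun k => ?_, fun k => ?_, ?_⟩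
  · have := all_lim hm h lam lam hlam le_rfl hl1 (fun u => u ^ k) (fun u => (k : ℝ) * u ^ (k - 1))
      (fun u => hasDerivAt_pow k u) (by fun_prop)
    rwa [int1 lam hlam k] at this
  · have h1 := all_lim hm h th lam hth htl.le hl1 (fun u => (1 - u / th) ^ k)
      (fun u => (k : ℝ) * (1 - u / th) ^ (k - 1) * (-(1 / th)))
      (fun u => (((hasDerivAt_id u).div_const th).const_sub 1).pow k) (by fun_prop)
    rw [int2 th lam hth hlam k] at h1
    have h2 := nonprime_lim hm th lam hth htl.le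
      (fun T a => (1 - Real.log a / (th * Real.log T)) ^ k) (by
        intro T hT a ha1 ha
        have hb := one_sub_mem th T hT hth a ha1 ha
        have e : Real.log a / Real.log T / th = Real.log a / (th * Real.log T) := by
          rw [div_div, mul_comm]
        rw [e] at hb
        show |(1 - Real.log a / (th * Real.log T)) ^ k| ≤ 1
        rw [abs_pow, abs_of_nonneg hb.1]
        exact pow_le_one₀ hb.1 hb.2)
    have h3 := h1.sub h2
    rw [sub_zero] at h3
    refine h3.congr ?_
    intro T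
    have h4 := Finset.sum_filter_add_sum_filter_not (Icc 1 ⌊T ^ th⌋₊) (fun a => a.Prime)
      (fun a => bb lam T a / a * (1 - Real.log a / (th * Real.log T)) ^ k)
    have h5 : ∑ a ∈ Icc 1 ⌊T ^ th⌋₊, bb lam T a / a * (1 - Real.log a / Real.log T / th) ^ k =
        ∑ a ∈ Icc 1 ⌊T ^ th⌋₊, bb lam T a / a * (1 - Real.log a / (th * Real.log T)) ^ k := by
      apply Finset.sum_congr rfl
      intro a _
      rw [div_div, mul_comm (Real.log T) th]
    simp only [h5]
    rw [← h4]
    ring
  · have h2 := nonprime_lim hm lam lam hlam le_rfl (fun _ _ => 1) (by intros; simp)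
    simpa using h2

end Pool.Agent.Lib.MP_6bc78b_nt.MS.L.H79
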